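import Pool.Agent.Lib.helper5.Velick

set_option autoImplicit false

namespace Pool.Agent.Results.MP_3028b5_gt.NoOmega2

/-- Radon-Nikodym: fragmented by a lower semicontinuous metric. -/
def IsRN (K : Type) [TopologicalSpace K] : Prop :=
  ∃ d : K → K → ℝ, (∀ x y, d x y = 0 ↔ x = y) ∧ (∀ x y, d x y = d y x) ∧
    (∀ x y z, d x z ≤ d x y + d y z) ∧ LowerSemicontinuous (fun p : K × K => d p.1 p.2) ∧
    ∀ L : Set K, L.Nonempty → ∀ ε : ℝ, 0 < ε → ∃ U : Set K, IsOpen U ∧ (U ∩ L).Nonempty ∧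
      ∃ δ < ε, ∀ x ∈ U ∩ L, ∀ y ∈ U ∩ L, d x y ≤ δ

/-- Valdivia: has a dense Sigma-subset. -/
def IsValdivia (K : Type) [TopologicalSpace K] : Prop :=
  ∃ (Γ : Type) (h : K → Γ → ℝ), Topology.IsEmbedding h ∧
    Dense {x : K | {γ : Γ | h x γ ≠ 0}.Countable}

theorem result : ∀ (K : Type) [TopologicalSpace K] [CompactSpace K] [T2Space K],
    IsRN K → IsValdivia K →
      ¬ ∃ f : Set.Iic (Cardinal.aleph.{0} 2).ord → K, Topology.IsEmbedding f := by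
  rintro K _ _ _ ⟨d, d1, d2, d3, d4, d5⟩ ⟨Γ, e, he, hd⟩ ⟨f, hf⟩
  refine H5V.chain (he.continuous.comp hf.continuous) (fun x => H5V.small he hd d4
    (fun x y h => lt_of_le_of_ne ?_ fun k => h ((d1 x y).1 k.symm)) (fun L hL ε hε => ?_) _)
    (he.injective.comp hf.injective)
  · linarith [d3 x y x, d2 y x, (d1 x x).2 rfl]
  · obtain ⟨U, u1, u2, δ, u3, u4⟩ := d5 L hL ε hε
    exact ⟨U, u1, u2, fun x hx y hy => (u4 x hx y hy).trans_lt u3⟩

end Pool.Agent.Results.MP_3028b5_gt.NoOmega2
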